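import Mathlib
import Pool.Agent.W27.BG.Good

/-! # High moments of `∑ χ(w+t) conj χ(w+h+t)`, `t` in an arbitrary finite set

The same as `Pool.Agent.TH7.PG` (Base, Det, Mom) with an arbitrary set of shifts instead of an
interval; the shifts are the values of an injective function `e : Fin L → ZMod p`. -/

set_option autoImplicit false

namespace Pool.Agent.Q40.PS

open Finset Pool.Agent.H471R4.BW

/-- the correlation sum of length `L` -/
noncomputable def V {p : ℕ} (χ : DirichletCharacter ℂ p) {L : ℕ} (e : Fin L → ZMod p) (h w : ZMod p) : ℂ :=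
  ∑ i : Fin L, χ (w + e i) * (starRingEnd ℂ) (χ (w + h + e i))

theorem V_norm_le {p : ℕ} (χ : DirichletCharacter ℂ p) {L : ℕ} (e : Fin L → ZMod p) (h w : ZMod p) :
    ‖V χ e h w‖ ≤ L := by
  unfold V
  refine (norm_sum_le _ _).trans ?_
  calc ∑ i : Fin L, ‖χ (w + e i) *
        (starRingEnd ℂ) (χ (w + h + e i))‖ ≤ ∑ _i : Fin L, (1 : ℝ) := by
        refine Finset.sum_le_sum fun i _ => ?_
        rw [norm_mul, RCLike.norm_conj]
        exact mul_le_one₀ (χ.norm_le_one _) (norm_nonneg _) (χ.norm_le_one _)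
    _ = L := by simp


/-- the tuples satisfying the relations given by `π` and `o` -/
def Sol {ι : Type*} [Fintype ι] [DecidableEq ι] {p L : ℕ} (e : Fin L → ZMod p) (π : ι → ι) (o : ι → ZMod p) :
    Finset (ι → Fin L) :=
  univ.filter fun i => ∀ s, e (i s) = e (i (π s)) + o s

theorem sol_one_side {ι : Type*} [Fintype ι] [DecidableEq ι] {p L : ℕ} (e : Fin L → ZMod p) (he : Function.Injective e)
    (hL0 : 1 ≤ L) (π : ι → ι) (o : ι → ZMod p) (rk : ι → ℕ) (k : ℕ)
    (hk : (univ.filter fun s => ¬ rk (π s) < rk s).card ≤ k) :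
    (Sol e π o).card ≤ L ^ k := by
  classical
  set D : Finset ι := univ.filter fun s => ¬ rk (π s) < rk s with hD
  have h1 : (Sol e π o).card ≤ (univ : Finset (D → Fin L)).card := by
    refine Finset.card_le_card_of_injOn (fun i s => i s.1) (fun _ _ => mem_coe.2 (mem_univ _)) ?_
    intro i hi j hj hij
    have hi' := (mem_filter.1 (mem_coe.1 hi)).2
    have hj' := (mem_filter.1 (mem_coe.1 hj)).2
    have key : ∀ n : ℕ, ∀ s, rk s < n → i s = j s := by
      intro n
      induction n with
      | zero => intro s hs; omega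
      | succ n ih =>
        intro s hs
        by_cases hsD : s ∈ D
        · exact congrFun hij ⟨s, hsD⟩
        · have h2 : rk (π s) < rk s := by
            by_contra hcon
            exact hsD (mem_filter.2 ⟨mem_univ _, hcon⟩)
          have h3 := ih (π s) (by omega)
          have h4 := hi' s
          have h5 := hj' s
          rw [h3, ← h5] at h4
          exact he h4
    funext s
    exact key (rk s + 1) s (Nat.lt_succ_self _)
  refine h1.trans ?_
  rw [Finset.card_univ, Fintype.card_fun, Fintype.card_fin, Fintype.card_coe]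
  exact Nat.pow_le_pow_right hL0 hk

theorem sol_card {ι : Type*} [Fintype ι] [DecidableEq ι] {p L : ℕ} (e : Fin L → ZMod p) (he : Function.Injective e)
    (hL0 : 1 ≤ L) (π : ι → ι) (o : ι → ZMod p) (rk : ι → ℕ) (hrk : Function.Injective rk) (k : ℕ)
    (hk : Fintype.card ι ≤ 2 * k) (hπ : ∀ s, π s ≠ s) :
    (Sol e π o).card ≤ L ^ k := by
  classical
  by_cases h : (univ.filter fun s => ¬ rk (π s) < rk s).card ≤ k
  · exact sol_one_side e he hL0 π o rk k h
  · set M : ℕ := ∑ s, rk s with hM
    have hle : ∀ s, rk s ≤ M := fun s => Finset.single_le_sum (fun _ _ => Nat.zero_le _) (mem_univ s)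
    refine sol_one_side e he hL0 π o (fun s => M - rk s) k ?_
    have h1 : (univ.filter fun s => ¬ (M - rk (π s) < M - rk s)) ⊆
        univ.filter fun s => rk (π s) < rk s := by
      intro s hs
      rw [mem_filter] at hs ⊢
      refine ⟨mem_univ _, ?_⟩
      have h2 := hs.2
      have h3 := hle s
      have h4 := hle (π s)
      have h5 : rk (π s) ≠ rk s := fun h5 => hπ s (hrk h5)
      omega
    refine (card_le_card h1).trans ?_
    have h2 := Finset.card_filter_add_card_filter_not (s := (univ : Finset ι))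
      (fun s => rk (π s) < rk s)
    rw [Finset.card_univ] at h2
    omega

/-- tuples in which each entry has a partner with offset `0` or `h` -/
theorem partner_card {ι : Type*} [Fintype ι] [DecidableEq ι] {p L : ℕ} (e : Fin L → ZMod p) (he : Function.Injective e)
    (hL0 : 1 ≤ L) (h : ZMod p) (rk : ι → ℕ) (hrk : Function.Injective rk) (k : ℕ)
    (hk : Fintype.card ι = 2 * k) (T : Finset (ι → Fin L))
    (hT : ∀ i ∈ T, ∀ s, ∃ t, t ≠ s ∧ (e (i s) = e (i t) ∨
      e (i s) = e (i t) + h)) :
    T.card ≤ (4 * k) ^ (2 * k) * L ^ k := by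
  classical
  set W : Finset ((ι → ι) × (ι → Bool)) := univ.filter fun w => ∀ s, w.1 s ≠ s with hW
  have hsub : T ⊆ W.biUnion fun w => Sol e w.1 (fun s => if w.2 s then h else 0) := by
    intro i hi
    choose π hπ using hT i hi
    rw [mem_biUnion]
    refine ⟨(π, fun s => decide (¬ (e (i s) = e (i (π s))))),
      mem_filter.2 ⟨mem_univ _, fun s => (hπ s).1⟩, mem_filter.2 ⟨mem_univ _, fun s => ?_⟩⟩
    by_cases h1 : e (i s) = e (i (π s))
    · simp [h1]
    · have h2 := (hπ s).2.resolve_left h1
      simp only [h1, not_false_eq_true, decide_true, if_true]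
      exact h2
  refine (card_le_card hsub).trans (card_biUnion_le.trans ?_)
  have h1 : ∀ w ∈ W, (Sol e w.1 (fun s => if w.2 s then h else 0)).card ≤ L ^ k := by
    intro w hw
    exact sol_card e he hL0 _ _ rk hrk k hk.le (mem_filter.1 hw).2
  refine (Finset.sum_le_card_nsmul _ _ _ h1).trans ?_
  rw [smul_eq_mul]
  refine Nat.mul_le_mul_right _ ?_
  refine (Finset.card_filter_le _ _).trans ?_
  rw [Finset.card_univ, Fintype.card_prod, Fintype.card_fun, Fintype.card_fun, Fintype.card_bool,
    hk, ← mul_pow]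
  refine Nat.pow_le_pow_left ?_ _
  omega


/-- first tuple of shifts -/
def bT {p k L : ℕ} (e : Fin L → ZMod p) (h : ZMod p) (b c : Fin k → Fin L) : Fin (k + k) → ZMod p :=
  Fin.append (fun s => e (b s)) (fun s => h + e (c s))

theorem expandV {p : ℕ} (χ : DirichletCharacter ℂ p) (k : ℕ) {L : ℕ} (e : Fin L → ZMod p) (h w : ZMod p) :
    ((‖V χ e h w‖ ^ (2 * k) : ℝ) : ℂ) =
      ∑ b : Fin k → Fin L, ∑ c : Fin k → Fin L,
        (∏ i, χ (w + bT e h b c i)) * ∏ i, (starRingEnd ℂ) (χ (w + bT e h c b i)) := by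
  set S : ℂ := V χ e h w with hS
  have h1 : ((‖S‖ ^ (2 * k) : ℝ) : ℂ) = S ^ k * (starRingEnd ℂ) S ^ k := by
    rw [← mul_pow, Complex.mul_conj, Complex.normSq_eq_norm_sq, pow_mul]
    push_cast
    ring
  have h2 : S ^ k = ∑ b : Fin k → Fin L, ∏ s, (χ (w + e (b s)) *
      (starRingEnd ℂ) (χ (w + h + e (b s)))) := by
    rw [hS, V, ← Fin.prod_const, Finset.prod_univ_sum, Fintype.piFinset_univ]
  have h3 : (starRingEnd ℂ) S ^ k = ∑ c : Fin k → Fin L,
      ∏ s, ((starRingEnd ℂ) (χ (w + e (c s))) *
      (χ (w + h + e (c s)))) := by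
    rw [hS, V, map_sum, ← Fin.prod_const, Finset.prod_univ_sum, Fintype.piFinset_univ]
    simp only [map_mul, RCLike.conj_conj, RingHomCompTriple.comp_apply, RingHom.id_apply]
  rw [h1, h2, h3, Finset.sum_mul_sum]
  refine Finset.sum_congr rfl fun b _ => Finset.sum_congr rfl fun c _ => ?_
  rw [Finset.prod_mul_distrib, Finset.prod_mul_distrib]
  unfold bT
  rw [Fin.prod_univ_add, Fin.prod_univ_add]
  simp only [Fin.append_left, Fin.append_right, ← add_assoc]
  ring

/-- if the combined tuples have no unique value then every entry has a partner -/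
theorem partner_of_not_uniq {p : ℕ} [NeZero p] {k L : ℕ} (e : Fin L → ZMod p) (h : ZMod p) (hh : h ≠ 0)
    (b c : Fin k → Fin L)
    (hU : ¬ Uniq (fun i => (bT e h b c i).val) (fun i => (bT e h c b i).val)) (s : Fin k) :
    (∃ t, t ≠ s ∧ (e (b s) = e (b t) ∨
      e (b s) = e (b t) + h)) ∨
    (∃ t, (e (b s) = e (c t) ∨
      e (b s) = e (c t) + h)) := by
  classical
  by_contra hcon
  push Not at hcon
  obtain ⟨h1, h2⟩ := hcon
  apply hU
  refine ⟨(e (b s)).val, ?_⟩
  have e1 : (univ.filter fun i => (bT e h b c i).val = (e (b s)).val) =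
      {Fin.castAdd k s} := by
    ext u
    rw [mem_filter, mem_singleton]
    refine Fin.addCases (fun t => ?_) (fun t => ?_) u
    · unfold bT
      rw [Fin.append_left]
      constructor
      · rintro ⟨_, h3⟩
        have h4 := ZMod.val_injective p h3
        by_contra h5
        have h6 : t ≠ s := fun h6 => h5 (by rw [h6])
        exact (h1 t h6).1 h4.symm
      · intro h3
        have h4 : t = s := Fin.castAdd_injective k k h3
        rw [h4]
        exact ⟨mem_univ _, rfl⟩
    · unfold bT
      rw [Fin.append_right]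
      constructor
      · rintro ⟨_, h3⟩
        have h4 := ZMod.val_injective p h3
        exact absurd (by rw [← h4]; ring) (h2 t).2
      · intro h3
        exfalso
        have h4 := congrArg Fin.val h3
        simp at h4
        have := s.2
        omega
  have e2 : (univ.filter fun i => (bT e h c b i).val = (e (b s)).val) =
      ∅ := by
    refine filter_false_of_mem fun u _ => ?_
    refine Fin.addCases (fun t => ?_) (fun t => ?_) u
    · unfold bT
      rw [Fin.append_left]
      intro h3
      have h4 := ZMod.val_injective p h3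
      exact (h2 t).1 h4.symm
    · unfold bT
      rw [Fin.append_right]
      intro h3
      have h4 := ZMod.val_injective p h3
      by_cases h5 : t = s
      · rw [h5] at h4
        exact hh (by simpa using h4)
      · exact (h1 t h5).2 (by rw [← h4]; ring)
  rw [e1, e2]
  simp

theorem uniq_symm {r : ℕ} (b c : Fin r → ℕ) (h : Uniq b c) : Uniq c b := by
  obtain ⟨v, hv⟩ := h
  exact ⟨v, by rw [add_comm]; exact hv⟩

open Classical in
theorem mom {p : ℕ} [Fact p.Prime] (χ : DirichletCharacter ℂ p) (hχ : χ ≠ 1) (k : ℕ) {L : ℕ}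
    (e : Fin L → ZMod p) (he : Function.Injective e) (hL1 : 1 ≤ L) (h : ZMod p) (hh : h ≠ 0) :
    ∑ w : ZMod p, ‖V χ e h w‖ ^ (2 * k) ≤
      (4 * k : ℝ) ^ (2 * k) * (L : ℝ) ^ k * p + (4 * k) * (L : ℝ) ^ (2 * k) * Real.sqrt p := by
  set term : (Fin k → Fin L) × (Fin k → Fin L) → ZMod p → ℂ := fun u w =>
    (∏ i, χ (w + bT e h u.1 u.2 i)) * ∏ i, (starRingEnd ℂ) (χ (w + bT e h u.2 u.1 i)) with hterm
  have hW : ((∑ w : ZMod p, ‖V χ e h w‖ ^ (2 * k) : ℝ) : ℂ) =
      ∑ u : (Fin k → Fin L) × (Fin k → Fin L), ∑ w : ZMod p, term u w := by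
    rw [Finset.sum_comm]
    push_cast
    refine Finset.sum_congr rfl fun w _ => ?_
    have := expandV χ k e h w
    push_cast at this
    rw [this, ← Finset.univ_product_univ, Finset.sum_product]
  have hW0 : 0 ≤ ∑ w : ZMod p, ‖V χ e h w‖ ^ (2 * k) :=
    Finset.sum_nonneg fun w _ => by positivity
  have hW1 : ∑ w : ZMod p, ‖V χ e h w‖ ^ (2 * k) =
      ‖∑ u : (Fin k → Fin L) × (Fin k → Fin L), ∑ w : ZMod p, term u w‖ := by
    rw [← hW, Complex.norm_real, Real.norm_eq_abs, abs_of_nonneg hW0]
  have hnorm : ∀ u w, ‖term u w‖ ≤ 1 := by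
    intro u w
    rw [hterm]
    simp only [norm_mul, norm_prod]
    refine mul_le_one₀ (Finset.prod_le_one (fun i _ => norm_nonneg _) fun i _ => ?_)
      (Finset.prod_nonneg fun i _ => norm_nonneg _)
      (Finset.prod_le_one (fun i _ => norm_nonneg _) fun i _ => ?_)
    · exact χ.norm_le_one _
    · rw [RCLike.norm_conj]
      exact χ.norm_le_one _
  rw [hW1]
  refine (norm_sum_le _ _).trans ?_
  set Q : (Fin k → Fin L) × (Fin k → Fin L) → Prop := fun u =>
    Uniq (fun i => (bT e h u.1 u.2 i).val) (fun i => (bT e h u.2 u.1 i).val) with hQ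
  rw [← Finset.sum_filter_add_sum_filter_not Finset.univ (fun u => ¬ Q u)]
  refine add_le_add ?_ ?_
  · have h1 : ∀ u ∈ Finset.univ.filter (fun u => ¬ Q u),
        ‖∑ w : ZMod p, term u w‖ ≤ (p : ℝ) := by
      intro u _
      refine (norm_sum_le _ _).trans ?_
      calc ∑ w : ZMod p, ‖term u w‖ ≤ ∑ _w : ZMod p, (1 : ℝ) :=
            Finset.sum_le_sum fun w _ => hnorm u w
        _ = p := by simp
    refine (Finset.sum_le_card_nsmul _ _ _ h1).trans ?_
    rw [nsmul_eq_mul]
    have h2 : (Finset.univ.filter (fun u => ¬ Q u)).card ≤ (4 * k) ^ (2 * k) * L ^ k := by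
      have hinj : Function.Injective
          (fun u : (Fin k → Fin L) × (Fin k → Fin L) => (Sum.elim u.1 u.2 : Fin k ⊕ Fin k → Fin L)) := by
        intro u v huv
        have h3 : Sum.elim u.1 u.2 = Sum.elim v.1 v.2 := huv
        refine Prod.ext ?_ ?_
        · funext s
          exact congrFun h3 (Sum.inl s)
        · funext s
          exact congrFun h3 (Sum.inr s)
      rw [← Finset.card_image_of_injective _ hinj]
      refine partner_card e he hL1 h
        (fun s => Sum.elim (fun i : Fin k => (i : ℕ)) (fun i : Fin k => k + (i : ℕ)) s) ?_ k ?_ _ ?_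
      · intro s t hst
        rcases s with s | s <;> rcases t with t | t
        · simp only [Sum.elim_inl] at hst
          rw [Fin.ext hst]
        · simp only [Sum.elim_inl, Sum.elim_inr] at hst
          have := s.2
          omega
        · simp only [Sum.elim_inl, Sum.elim_inr] at hst
          have := t.2
          omega
        · simp only [Sum.elim_inr] at hst
          have : s = t := Fin.ext (by omega)
          rw [this]
      · rw [Fintype.card_sum, Fintype.card_fin]
        ring
      · intro i hi s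
        obtain ⟨u, hu, rfl⟩ := mem_image.1 hi
        have hu2 : ¬ Q u := (mem_filter.1 hu).2
        rcases s with s | s
        · rcases partner_of_not_uniq e h hh u.1 u.2 hu2 s with ⟨t, ht, h3⟩ | ⟨t, h3⟩
          · exact ⟨Sum.inl t, fun h4 => ht (Sum.inl_injective h4), h3⟩
          · exact ⟨Sum.inr t, fun h4 => by simp at h4, h3⟩
        · have hu3 : ¬ Uniq (fun i => (bT e h u.2 u.1 i).val) (fun i => (bT e h u.1 u.2 i).val) :=
            fun h4 => hu2 (uniq_symm _ _ h4)
          rcases partner_of_not_uniq e h hh u.2 u.1 hu3 s with ⟨t, ht, h3⟩ | ⟨t, h3⟩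
          · exact ⟨Sum.inr t, fun h4 => ht (Sum.inr_injective h4), h3⟩
          · exact ⟨Sum.inl t, fun h4 => by simp at h4, h3⟩
    have h3 : ((Finset.univ.filter (fun u => ¬ Q u)).card : ℝ) ≤
        (4 * k : ℝ) ^ (2 * k) * (L : ℝ) ^ k := by
      exact_mod_cast h2
    exact mul_le_mul_of_nonneg_right h3 (Nat.cast_nonneg p)
  · have h1 : ∀ u ∈ Finset.univ.filter (fun u => ¬ ¬ Q u),
        ‖∑ w : ZMod p, term u w‖ ≤ (4 * k) * Real.sqrt p := by
      intro u hu
      rw [Finset.mem_filter] at hu
      have h3 := Pool.Agent.W27.BG.complete_all p χ hχ (k + k)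
        (fun i => (bT e h u.1 u.2 i).val) (fun i => (bT e h u.2 u.1 i).val)
        (fun i => ZMod.val_lt _) (fun i => ZMod.val_lt _) (not_not.1 hu.2)
      simp only [ZMod.natCast_zmod_val] at h3
      refine h3.trans (le_of_eq ?_)
      push_cast
      ring
    refine (Finset.sum_le_card_nsmul _ _ _ h1).trans ?_
    rw [nsmul_eq_mul]
    have h2 : ((Finset.univ.filter (fun u => ¬ ¬ Q u)).card : ℝ) ≤ (L : ℝ) ^ (2 * k) := by
      have h3 := Finset.card_filter_le (Finset.univ : Finset ((Fin k → Fin L) × (Fin k → Fin L)))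
        (fun u => ¬ ¬ Q u)
      have h4 : (Finset.univ : Finset ((Fin k → Fin L) × (Fin k → Fin L))).card = L ^ (2 * k) := by
        rw [Finset.card_univ, Fintype.card_prod, Fintype.card_fun, Fintype.card_fin,
          Fintype.card_fin, two_mul, pow_add]
      rw [h4] at h3
      exact_mod_cast h3
    calc _ ≤ (L : ℝ) ^ (2 * k) * ((4 * k) * Real.sqrt p) :=
          mul_le_mul_of_nonneg_right h2 (by positivity)
      _ = (4 * k) * (L : ℝ) ^ (2 * k) * Real.sqrt p := by ring

end Pool.Agent.Q40.PS
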