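import Pool.Agent.Q40.PS.Pairs
import Pool.Agent.TH7.PG.OneSided
import Pool.Agent.Y881.PG.Mom2

/-! # One set nearly invariant under an arbitrary small set of translations, the other arbitrary

The same as `Pool.Agent.TH7.PG.OneSided` with an arbitrary set of shifts instead of a progression. -/

set_option autoImplicit false

namespace Pool.Agent.Q40.PS

open Finset Pool.Agent.TH7.PG
open scoped Pointwise

/-- the correlation sum over `T` with two free starting points -/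
noncomputable def WW {p : ℕ} (χ : DirichletCharacter ℂ p) (T : Finset (ZMod p)) (u v : ZMod p) : ℂ :=
  ∑ t ∈ T, χ (u + t) * (starRingEnd ℂ) (χ (v + t))

theorem WW_norm_le {p : ℕ} (χ : DirichletCharacter ℂ p) (T : Finset (ZMod p)) (u v : ZMod p) :
    ‖WW χ T u v‖ ≤ T.card := by
  unfold WW
  refine (norm_sum_le _ _).trans ?_
  calc ∑ t ∈ T, ‖χ (u + t) * (starRingEnd ℂ) (χ (v + t))‖ ≤ ∑ _t ∈ T, (1 : ℝ) := by
        refine Finset.sum_le_sum fun i _ => ?_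
        rw [norm_mul, RCLike.norm_conj]
        exact mul_le_one₀ (χ.norm_le_one _) (norm_nonneg _) (χ.norm_le_one _)
    _ = T.card := by simp

/-- the exceptional pairs -/
noncomputable def Bad2' {p : ℕ} [NeZero p] (χ : DirichletCharacter ℂ p) (T : Finset (ZMod p)) (B : ℝ) :
    Finset (ZMod p × ZMod p) :=
  open Classical in univ.filter fun w => B < ‖WW χ T w.1 w.2‖

theorem bad2'_card {p : ℕ} [Fact p.Prime] (χ : DirichletCharacter ℂ p) (hχ : χ ≠ 1) (k : ℕ)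
    (T : Finset (ZMod p)) (hk : 1 ≤ k) (B : ℝ) (hB : 0 < B) :
    ((Bad2' χ T B).card : ℝ) ≤
      ((k : ℝ) ^ (2 * k) * (T.card : ℝ) ^ k * (p : ℝ) ^ 2 + (2 * k) ^ 2 * (T.card : ℝ) ^ (2 * k) * p) /
        B ^ (2 * k) := by
  classical
  rw [le_div_iff₀ (by positivity)]
  have h1 := Pool.Agent.Y881.PG.mom2F (χ := χ) k (2 * k) hk (by positivity) T
    (Pool.Agent.W27.BG.complete_all p χ hχ k)
  have e1 : (T.card : ℝ) ^ (2 * k) * (2 * k * Real.sqrt p) ^ 2 = (2 * k) ^ 2 * (T.card : ℝ) ^ (2 * k) * p := by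
    rw [mul_pow, Real.sq_sqrt (Nat.cast_nonneg _)]
    ring
  rw [e1] at h1
  refine le_trans ?_ h1
  rw [← Finset.sum_product' (f := fun u v => ‖∑ b ∈ T, χ (u + b) * (starRingEnd ℂ) (χ (v + b))‖ ^ (2 * k)),
    Finset.univ_product_univ]
  calc ((Bad2' χ T B).card : ℝ) * B ^ (2 * k)
      = ∑ _w ∈ Bad2' χ T B, B ^ (2 * k) := by
        rw [Finset.sum_const, nsmul_eq_mul]
    _ ≤ ∑ w ∈ Bad2' χ T B, ‖WW χ T w.1 w.2‖ ^ (2 * k) := by
        refine Finset.sum_le_sum fun w hw => ?_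
        exact pow_le_pow_left₀ hB.le (mem_filter.1 hw).2.le _
    _ ≤ ∑ w : ZMod p × ZMod p, ‖WW χ T w.1 w.2‖ ^ (2 * k) :=
        Finset.sum_le_sum_of_subset_of_nonneg (Finset.subset_univ _) fun _ _ _ => by positivity

theorem shift_one' {p : ℕ} [Fact p.Prime] (χ : DirichletCharacter ℂ p) (T : Finset (ZMod p)) (hT : 1 ≤ T.card)
    (B : ℝ) (hB : 0 ≤ B) (A₀ B₀ U : Finset (ZMod p))
    (hU : ∀ a ∈ A₀, ∀ t ∈ T, a - t ∈ U)
    (g : ZMod p → ℂ) (hg : ∀ x, ‖g x‖ ≤ 1) :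
    ∑ a ∈ A₀, ‖∑ b ∈ B₀, g b * χ (a + b)‖ ^ 2 ≤
      B / T.card * ((U.card : ℝ) * (B₀.card : ℝ) ^ 2) +
      (((U ×ˢ (B₀ ×ˢ B₀)).filter fun t => (t.1 + t.2.1, t.1 + t.2.2) ∈ Bad2' χ T B).card : ℝ) := by
  classical
  have hLpos : (0 : ℝ) < T.card := by exact_mod_cast hT
  set h : ZMod p → ℝ := fun t => ‖∑ b ∈ B₀, g b * χ (t + b)‖ ^ 2 with hh
  have h0 : ∀ t, 0 ≤ h t := fun t => by positivity
  have h1 : ∀ i ∈ T, ∑ a ∈ A₀, h a ≤ ∑ t ∈ U, h (t + i) := by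
    intro i hi
    have e1 : ∑ a ∈ A₀, h a = ∑ t ∈ A₀.image (fun a => a - i), h (t + i) := by
      rw [Finset.sum_image fun a _ b _ hab => sub_left_injective hab]
      refine Finset.sum_congr rfl fun a _ => ?_
      rw [sub_add_cancel]
    rw [e1]
    refine Finset.sum_le_sum_of_subset_of_nonneg ?_ fun _ _ _ => h0 _
    intro t ht
    obtain ⟨a, ha, rfl⟩ := mem_image.1 ht
    exact hU a ha i hi
  -- the inner sums
  have h2 : ∀ t : ZMod p, ∑ i ∈ T, h (t + i) ≤ ∑ u ∈ B₀ ×ˢ B₀, ‖WW χ T (t + u.1) (t + u.2)‖ := by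
    intro t
    have e1 : ((∑ i ∈ T, h (t + i) : ℝ) : ℂ) =
        ∑ u ∈ B₀ ×ˢ B₀, (g u.1 * (starRingEnd ℂ) (g u.2)) * WW χ T (t + u.1) (t + u.2) := by
      have e2 : ∀ i ∈ T, ((h (t + i) : ℝ) : ℂ) =
          ∑ u ∈ B₀ ×ˢ B₀, (g u.1 * (starRingEnd ℂ) (g u.2)) *
          (χ (t + u.1 + i) * (starRingEnd ℂ) (χ (t + u.2 + i))) := by
        intro i _
        have e3 : ((h (t + i) : ℝ) : ℂ) =
            (∑ b ∈ B₀, g b * χ (t + i + b)) * (starRingEnd ℂ) (∑ b ∈ B₀, g b * χ (t + i + b)) := by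
          rw [hh, Complex.mul_conj, Complex.normSq_eq_norm_sq]
        rw [e3, map_sum, Finset.sum_mul_sum, Finset.sum_product]
        refine Finset.sum_congr rfl fun b _ => Finset.sum_congr rfl fun b' _ => ?_
        have e4 : ∀ y : ZMod p, t + i + y = t + y + i := fun y => by ring
        rw [e4 b, e4 b', map_mul]
        ring
      rw [Complex.ofReal_sum, Finset.sum_congr rfl e2, Finset.sum_comm]
      refine Finset.sum_congr rfl fun u _ => ?_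
      rw [← Finset.mul_sum]
      rfl
    have e5 : ∑ i ∈ T, h (t + i) =
        ‖∑ u ∈ B₀ ×ˢ B₀, (g u.1 * (starRingEnd ℂ) (g u.2)) * WW χ T (t + u.1) (t + u.2)‖ := by
      rw [← e1, Complex.norm_real, Real.norm_eq_abs, abs_of_nonneg]
      exact Finset.sum_nonneg fun i _ => h0 _
    rw [e5]
    refine (norm_sum_le _ _).trans (Finset.sum_le_sum fun u _ => ?_)
    rw [norm_mul, norm_mul, RCLike.norm_conj]
    exact mul_le_of_le_one_left (norm_nonneg _) (mul_le_one₀ (hg _) (norm_nonneg _) (hg _))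
  set Z : Finset (ZMod p × (ZMod p × ZMod p)) := (U ×ˢ (B₀ ×ˢ B₀)).filter fun t =>
        (t.1 + t.2.1, t.1 + t.2.2) ∈ Bad2' χ T B with hZ
  have h3 : ∑ t ∈ U, ∑ i ∈ T, h (t + i) ≤ B * ((U.card : ℝ) * (B₀.card : ℝ) ^ 2) + T.card * Z.card := by
    refine (Finset.sum_le_sum fun t _ => h2 t).trans ?_
    rw [← Finset.sum_product (s := U) (t := B₀ ×ˢ B₀)
      (f := fun t => ‖WW χ T (t.1 + t.2.1) (t.1 + t.2.2)‖)]
    rw [← Finset.sum_filter_add_sum_filter_not (U ×ˢ (B₀ ×ˢ B₀))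
      (fun t => (t.1 + t.2.1, t.1 + t.2.2) ∈ Bad2' χ T B), add_comm]
    refine add_le_add ?_ ?_
    · refine (Finset.sum_le_card_nsmul _ _ B fun t ht => ?_).trans ?_
      · have h4 := (mem_filter.1 ht).2
        by_contra hcon
        push Not at hcon
        exact h4 (mem_filter.2 ⟨mem_univ _, hcon⟩)
      · rw [nsmul_eq_mul, mul_comm B]
        refine mul_le_mul_of_nonneg_right ?_ hB
        have h5 := Finset.card_filter_le (U ×ˢ (B₀ ×ˢ B₀))
          (fun t => ¬ (t.1 + t.2.1, t.1 + t.2.2) ∈ Bad2' χ T B)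
        rw [Finset.card_product, Finset.card_product] at h5
        have h6 : (((U ×ˢ (B₀ ×ˢ B₀)).filter fun t =>
          ¬ (t.1 + t.2.1, t.1 + t.2.2) ∈ Bad2' χ T B).card : ℝ) ≤
          (U.card : ℝ) * ((B₀.card : ℝ) * B₀.card) := by exact_mod_cast h5
        rw [sq]
        exact h6
    · refine (Finset.sum_le_card_nsmul _ _ (T.card : ℝ) fun t _ => WW_norm_le χ T _ _).trans ?_
      rw [nsmul_eq_mul, mul_comm]
  have h7 : (T.card : ℝ) * ∑ a ∈ A₀, h a ≤ B * ((U.card : ℝ) * (B₀.card : ℝ) ^ 2) + T.card * Z.card := by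
    refine le_trans ?_ h3
    rw [Finset.sum_comm]
    calc (T.card : ℝ) * ∑ a ∈ A₀, h a = ∑ _i ∈ T, ∑ a ∈ A₀, h a := by
          rw [Finset.sum_const, nsmul_eq_mul]
      _ ≤ _ := Finset.sum_le_sum h1
  have h8 : ∑ a ∈ A₀, h a ≤ (B * ((U.card : ℝ) * (B₀.card : ℝ) ^ 2) + T.card * Z.card) / T.card := by
    rw [le_div_iff₀ hLpos, mul_comm]
    exact h7
  refine h8.trans (le_of_eq ?_)
  field_simp

theorem bad_one' {p : ℕ} [Fact p.Prime] (A B T : Finset (ZMod p))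
    (X : Finset (ZMod p × ZMod p)) (M m : ℝ) (hX : (X.card : ℝ) ≤ M)
    (hAB : ∀ Y : Finset (ZMod p × ZMod p), (Y.card : ℝ) ≤ M →
      (((A ×ˢ (B ×ˢ B)).filter fun t => (t.1 + t.2.1, t.1 + t.2.2) ∈ Y).card : ℝ) ≤ m) :
    ((((A - T) ×ˢ (B ×ˢ B)).filter fun t => (t.1 + t.2.1, t.1 + t.2.2) ∈ X).card : ℝ) ≤ T.card * m := by
  classical
  set Y : ZMod p → Finset (ZMod p × ZMod p) := fun i =>
    X.image fun x => (x.1 + i, x.2 + i) with hY
  have hsub : ((A - T) ×ˢ (B ×ˢ B)).filter (fun t => (t.1 + t.2.1, t.1 + t.2.2) ∈ X) ⊆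
      T.biUnion fun i =>
        ((A ×ˢ (B ×ˢ B)).filter fun t => (t.1 + t.2.1, t.1 + t.2.2) ∈ Y i).image
          fun t => (t.1 - i, t.2) := by
    intro t ht
    have ht1 := mem_filter.1 ht
    have ht2 := mem_product.1 ht1.1
    obtain ⟨a, ha, i, hi, hai⟩ := mem_sub.1 ht2.1
    rw [mem_biUnion]
    refine ⟨i, hi, mem_image.2 ⟨(a, t.2), mem_filter.2
      ⟨mem_product.2 ⟨ha, ht2.2⟩, ?_⟩, ?_⟩⟩
    · refine mem_image.2 ⟨_, ht1.2, ?_⟩
      refine Prod.ext ?_ ?_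
      · show t.1 + t.2.1 + i = a + t.2.1
        rw [← hai]
        ring
      · show t.1 + t.2.2 + i = a + t.2.2
        rw [← hai]
        ring
    · exact Prod.ext hai rfl
  have h1 : ∀ i ∈ T,
      ((((A ×ˢ (B ×ˢ B)).filter fun t => (t.1 + t.2.1, t.1 + t.2.2) ∈ Y i).image
          fun t => (t.1 - i, t.2)).card : ℝ) ≤ m := by
    intro i _
    have h2 : ((Y i).card : ℝ) ≤ M := by
      refine le_trans ?_ hX
      exact_mod_cast card_image_le
    refine le_trans ?_ (hAB (Y i) h2)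
    exact_mod_cast card_image_le
  calc ((((A - T) ×ˢ (B ×ˢ B)).filter fun t => (t.1 + t.2.1, t.1 + t.2.2) ∈ X).card : ℝ)
      ≤ ((∑ i ∈ T, (((A ×ˢ (B ×ˢ B)).filter fun t =>
          (t.1 + t.2.1, t.1 + t.2.2) ∈ Y i).image
          fun t => (t.1 - i, t.2)).card : ℕ) : ℝ) := by
        exact_mod_cast (card_le_card hsub).trans card_biUnion_le
    _ ≤ ∑ _i ∈ T, m := by
        push_cast
        exact Finset.sum_le_sum h1
    _ = T.card * m := by
        rw [Finset.sum_const, nsmul_eq_mul]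

/-- the second moment over `A` of the sums over `B`, `A` nearly invariant under an arbitrary set of translations -/
theorem one_sq (ε : ℝ) (hε : 0 < ε) : ∃ τ : ℝ, 0 < τ ∧ ∃ p₀ : ℕ,
    ∀ (p : ℕ) [Fact p.Prime], p₀ ≤ p → ∀ χ : DirichletCharacter ℂ p, χ ≠ 1 →
    ∀ (A B T : Finset (ZMod p)), (p : ℝ) ^ ε ≤ T.card →
      ((A + T).card : ℝ) ≤ (p : ℝ) ^ τ * A.card →
      (∀ X : Finset (ZMod p × ZMod p), (X.card : ℝ) ≤ (p : ℝ) ^ (1 + ε) →
        (((A ×ˢ (B ×ˢ B)).filter fun t => (t.1 + t.2.1, t.1 + t.2.2) ∈ X).card : ℝ) ≤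
          (p : ℝ) ^ (-ε) * (A.card * (B.card : ℝ) ^ 2)) →
      ∀ g : ZMod p → ℂ, (∀ x, ‖g x‖ ≤ 1) → ∑ a ∈ A, ‖∑ b ∈ B, g b * χ (a + b)‖ ^ 2 ≤ (p : ℝ) ^ (-τ) *
        (A.card * (B.card : ℝ) ^ 2) := by
  classical
  set ε' : ℝ := min ε 1 with hε'
  have hε'0 : 0 < ε' := lt_min hε one_pos
  have hε'1 : ε' ≤ 1 := min_le_right _ _
  have hε'ε : ε' ≤ ε := min_le_left _ _
  set κ : ℝ := ε' / 64 with hκ
  set c : ℝ := ε' / 64 with hc
  have hκ0 : 0 < κ := by positivity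
  have hc0 : 0 < c := by positivity
  have hκ1 : κ ≤ 1 := by rw [hκ]; linarith
  have hc1 : c ≤ 1 / 4 := by rw [hc]; linarith
  have hκc0 : 0 < κ * c := mul_pos hκ0 hc0
  set k : ℕ := ⌈1 / κ⌉₊ with hk
  have hk1 : 1 ≤ κ * k := by
    have h1 : 1 / κ ≤ k := Nat.le_ceil _
    rw [div_le_iff₀ hκ0] at h1
    linarith
  have hk2 : κ * k ≤ 2 := by
    have h1 : (k : ℝ) < 1 / κ + 1 := Nat.ceil_lt_add_one (by positivity)
    have h2 : κ * k < κ * (1 / κ + 1) := mul_lt_mul_of_pos_left h1 hκ0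
    have h3 : κ * (1 / κ + 1) = 1 + κ := by
      field_simp
    linarith
  have hkn : 1 ≤ k := by
    rw [hk]
    exact Nat.one_le_ceil_iff.2 (by positivity)
  set C₁ : ℝ := (k : ℝ) ^ (2 * k) * 2 ^ k + (2 * k) ^ 2 with hC₁
  obtain ⟨p₁, hp₁⟩ := large 2 κ hκ0
  obtain ⟨p₂, hp₂⟩ := large C₁ (ε' / 2) (by positivity)
  obtain ⟨p₃, hp₃⟩ := large 3 (κ * c / 16) (by positivity)
  refine ⟨κ * c / 16, by positivity, max p₁ (max p₂ p₃), ?_⟩
  intro p hpf hp χ hχ A B T hT hA hAB g hg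
  have hp1 := hp₁ p ((le_max_left _ _).trans hp)
  have hp2 := hp₂ p (((le_max_left _ _).trans (le_max_right _ _)).trans hp)
  have hp3 := hp₃ p (((le_max_right _ _).trans (le_max_right _ _)).trans hp)
  have hpR : (1 : ℝ) ≤ p := by exact_mod_cast (Fact.out : p.Prime).one_lt.le
  have hp0 : (0 : ℝ) < p := by linarith
  set L : ℕ := ⌊(p : ℝ) ^ κ⌋₊ with hL
  have hLle : (L : ℝ) ≤ (p : ℝ) ^ κ := Nat.floor_le (by positivity)
  have hLge : (p : ℝ) ^ κ / 2 ≤ L := by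
    have := Nat.lt_floor_add_one ((p : ℝ) ^ κ)
    rw [← hL] at this
    linarith
  have hL1 : 1 ≤ L := by
    rw [hL]
    exact Nat.le_floor (by push_cast; linarith)
  have hL1' : (1 : ℝ) ≤ L := by exact_mod_cast hL1
  have hκε : κ ≤ ε := by rw [hκ]; linarith
  have hLN : L ≤ T.card := by
    have h1 : (L : ℝ) ≤ T.card := by
      refine hLle.trans (le_trans ?_ hT)
      exact Real.rpow_le_rpow_of_exponent_le hpR hκε
    exact_mod_cast h1
  obtain ⟨S, hS, hSc⟩ := Finset.exists_subset_card_eq hLN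
  set T₀ : Finset (ZMod p) := S.image fun t => -t with hT₀
  have hT₀c : T₀.card = L := by rw [hT₀, card_image_of_injective _ neg_injective, hSc]
  have hT₀T : ∀ t ∈ T₀, -t ∈ T := by
    intro t ht
    obtain ⟨s, hs, rfl⟩ := mem_image.1 ht
    rw [neg_neg]
    exact hS hs
  have hLpos : (0 : ℝ) < L := by linarith
  set Bd : ℝ := (L : ℝ) ^ (1 - c) with hBd
  have hBd0 : 0 < Bd := by positivity
  set M : ℝ := ((k : ℝ) ^ (2 * k) * (L : ℝ) ^ k * (p : ℝ) ^ 2 +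
    (2 * k) ^ 2 * (L : ℝ) ^ (2 * k) * p) / Bd ^ (2 * k) with hM
  have hX : ((Bad2' χ T₀ Bd).card : ℝ) ≤ M := by
    have h1 := bad2'_card χ hχ k T₀ hkn Bd hBd0
    rw [hT₀c] at h1
    exact h1
  have hMle : M ≤ C₁ * (p : ℝ) ^ (1 + 4 * c) :=
    M2_num p κ c k L hpR hκ0 hc0 hc1 hk1 hk2 hL1' hLge hLle
  have hMle2 : M ≤ (p : ℝ) ^ (1 + ε) := by
    refine hMle.trans ?_
    calc C₁ * (p : ℝ) ^ (1 + 4 * c) ≤
          (p : ℝ) ^ (ε' / 2) * (p : ℝ) ^ (1 + 4 * c) :=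
          mul_le_mul_of_nonneg_right hp2 (by positivity)
      _ = (p : ℝ) ^ (ε' / 2 + (1 + 4 * c)) := by rw [← Real.rpow_add hp0]
      _ ≤ (p : ℝ) ^ (1 + ε) := by
          refine Real.rpow_le_rpow_of_exponent_le hpR ?_
          rw [hc]
          linarith
  have hsb := shift_one' χ T₀ (by rw [hT₀c]; exact hL1) Bd hBd0.le A B (A - T₀)
    (fun a ha t ht => sub_mem_sub ha ht) g hg
  rw [hT₀c] at hsb
  have hbad := bad_one' A B T₀ (Bad2' χ T₀ Bd) M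
    ((p : ℝ) ^ (-ε) * (A.card * (B.card : ℝ) ^ 2)) hX (fun Y hY => hAB Y (hY.trans hMle2))
  rw [hT₀c] at hbad
  have hUA : ((A - T₀).card : ℝ) ≤ (p : ℝ) ^ (κ * c / 16) * A.card := by
    refine le_trans ?_ hA
    have h1 : A - T₀ ⊆ A + T := by
      intro x hx
      obtain ⟨a, ha, t, ht, rfl⟩ := mem_sub.1 hx
      rw [sub_eq_add_neg]
      exact add_mem_add ha (hT₀T t ht)
    exact_mod_cast card_le_card h1
  have hR : Bd / L ≤ 2 * (p : ℝ) ^ (-(κ * c)) :=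
    R2_num p κ c L hpR hκ0 (by linarith) hc0 hL1' hLge
  have hA1 : (0 : ℝ) ≤ A.card := Nat.cast_nonneg _
  have h2 := one_num p κ c ε A.card B.card (A - T₀).card L (Bd / L) hpR hκ0 hc0
    (by rw [hκ]; linarith) (by nlinarith) (Nat.cast_nonneg _) (Nat.cast_nonneg _) hUA
    (Nat.cast_nonneg _) hLle (Nat.cast_nonneg _) hR hp3
  have h3 : (A.card : ℝ) * ∑ a ∈ A, ‖∑ b ∈ B, g b * χ (a + b)‖ ^ 2 ≤
      A.card * ((p : ℝ) ^ (-(κ * c / 16)) * (A.card * (B.card : ℝ) ^ 2)) := by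
    refine ((mul_le_mul_of_nonneg_left (hsb.trans (add_le_add le_rfl hbad)) hA1).trans h2).trans ?_
    have e1 : ((p : ℝ) ^ (-(κ * c / 4)) * (A.card * B.card)) ^ 2 =
        (p : ℝ) ^ (-(κ * c / 2)) * (A.card * (A.card * (B.card : ℝ) ^ 2)) := by
      rw [mul_pow, ← Real.rpow_natCast ((p : ℝ) ^ _), ← Real.rpow_mul hp0.le]
      have e2 : -(κ * c / 4) * ((2 : ℕ) : ℝ) = -(κ * c / 2) := by
        push_cast
        ring
      rw [e2]
      ring
    rw [e1]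
    have e3 : (A.card : ℝ) * ((p : ℝ) ^ (-(κ * c / 16)) * (A.card * (B.card : ℝ) ^ 2)) =
        (p : ℝ) ^ (-(κ * c / 16)) * (A.card * (A.card * (B.card : ℝ) ^ 2)) := by ring
    rw [e3]
    exact mul_le_mul_of_nonneg_right (Real.rpow_le_rpow_of_exponent_le hpR (by nlinarith)) (by positivity)
  rcases Nat.eq_zero_or_pos A.card with h0 | h0
  · have : A = ∅ := card_eq_zero.1 h0
    subst this
    simp
  · have h4 : (0 : ℝ) < A.card := by exact_mod_cast h0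
    exact le_of_mul_le_mul_left h3 h4

end Pool.Agent.Q40.PS
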