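import Pool.Agent.Q40.PS.Shift
import Pool.Agent.TH7.PG.Local

/-! # Pairs of sets that are nearly invariant under arbitrary small sets of translations

`A` is nearly invariant under the translations by the elements of a set `T` with at least `p ^ ε` elements, `B` under
those of a set `T'`; nothing else is assumed about `T` and `T'`. The numerical lemmas are those of
`Pool.Agent.TH7.PG` (arithmetic progressions instead of `T`, `T'`). -/

set_option autoImplicit false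

namespace Pool.Agent.Q40.PS

open Finset Pool.Agent.TH7.PG
open scoped Pointwise

/-- a set with at least `L` elements contains `L` different elements -/
theorem exists_enum {p : ℕ} (T : Finset (ZMod p)) (L : ℕ) (hL : L ≤ T.card) :
    ∃ e : Fin L → ZMod p, Function.Injective e ∧ ∀ i, - e i ∈ T := by
  obtain ⟨S, hS, hc⟩ := Finset.exists_subset_card_eq hL
  refine ⟨fun i => -(S.equivFin.symm (Fin.cast hc.symm i) : ZMod p), ?_, fun i => ?_⟩
  · intro i j hij
    have h1 := S.equivFin.symm.injective (Subtype.coe_injective (neg_injective hij))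
    exact Fin.cast_injective _ h1
  · rw [neg_neg]
    exact hS (Subtype.coe_prop _)

/-- the set `A - {e 0, ..., e (L-1)}` -/
def dn' {p L : ℕ} (A : Finset (ZMod p)) (e : Fin L → ZMod p) : Finset (ZMod p) :=
  (A ×ˢ (univ : Finset (Fin L))).image fun u => u.1 - e u.2

theorem dn'_card {p L : ℕ} (A T : Finset (ZMod p)) (e : Fin L → ZMod p) (he : ∀ i, - e i ∈ T) :
    (dn' A e).card ≤ (A + T).card := by
  refine Finset.card_le_card fun x hx => ?_
  obtain ⟨u, hu, rfl⟩ := mem_image.1 hx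
  rw [sub_eq_add_neg]
  exact add_mem_add (mem_product.1 hu).1 (he _)

theorem bad_local' {p L : ℕ} [Fact p.Prime] (A B : Finset (ZMod p)) (e e' : Fin L → ZMod p)
    (X : Finset (ZMod p)) (M m : ℝ) (hX : (X.card : ℝ) ≤ M)
    (hAB : ∀ Y : Finset (ZMod p), (Y.card : ℝ) ≤ M →
      (((A ×ˢ B).filter fun t => t.1 + t.2 ∈ Y).card : ℝ) ≤ m) :
    ((((dn' A e) ×ˢ (dn' B e')).filter fun t => t.1 + t.2 ∈ X).card : ℝ) ≤ (L : ℝ) ^ 2 * m := by
  classical
  set Y : Fin L × Fin L → Finset (ZMod p) := fun u => X.image fun x => x + e u.1 + e' u.2 with hY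
  have hsub : ((dn' A e) ×ˢ (dn' B e')).filter (fun t => t.1 + t.2 ∈ X) ⊆
      (univ : Finset (Fin L × Fin L)).biUnion fun u =>
        ((A ×ˢ B).filter fun t => t.1 + t.2 ∈ Y u).image fun t => (t.1 - e u.1, t.2 - e' u.2) := by
    intro t ht
    have ht1 := mem_filter.1 ht
    have ht2 := mem_product.1 ht1.1
    obtain ⟨u, hu, hu2⟩ := mem_image.1 ht2.1
    obtain ⟨v, hv, hv2⟩ := mem_image.1 ht2.2
    rw [mem_biUnion]
    refine ⟨(u.2, v.2), mem_univ _, mem_image.2 ⟨(u.1, v.1), mem_filter.2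
      ⟨mem_product.2 ⟨(mem_product.1 hu).1, (mem_product.1 hv).1⟩, ?_⟩, ?_⟩⟩
    · refine mem_image.2 ⟨_, ht1.2, ?_⟩
      show t.1 + t.2 + e u.2 + e' v.2 = u.1 + v.1
      rw [← hu2, ← hv2]
      ring
    · exact Prod.ext hu2 hv2
  have h1 : ∀ u ∈ (univ : Finset (Fin L × Fin L)),
      ((((A ×ˢ B).filter fun t => t.1 + t.2 ∈ Y u).image
          fun t => (t.1 - e u.1, t.2 - e' u.2)).card : ℝ) ≤ m := by
    intro u _
    have h2 : ((Y u).card : ℝ) ≤ M := by
      refine le_trans ?_ hX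
      exact_mod_cast card_image_le
    refine le_trans ?_ (hAB (Y u) h2)
    exact_mod_cast card_image_le
  calc ((((dn' A e) ×ˢ (dn' B e')).filter fun t => t.1 + t.2 ∈ X).card : ℝ)
      ≤ ((∑ u : Fin L × Fin L, (((A ×ˢ B).filter fun t => t.1 + t.2 ∈ Y u).image
          fun t => (t.1 - e u.1, t.2 - e' u.2)).card : ℕ) : ℝ) := by
        exact_mod_cast (card_le_card hsub).trans card_biUnion_le
    _ ≤ ∑ _u : Fin L × Fin L, m := by
        push_cast
        exact Finset.sum_le_sum h1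
    _ = (L : ℝ) ^ 2 * m := by
        rw [Finset.sum_const, nsmul_eq_mul, Finset.card_univ, Fintype.card_prod, Fintype.card_fin]
        push_cast
        ring

/-- power saving for the forms with kernel `χ (a + b)` over `A × B`, where `A` and `B` are nearly invariant under the
translations by arbitrary sets `T`, `T'` with `p ^ ε` elements -/
theorem pairs (ε : ℝ) (hε : 0 < ε) : ∃ τ : ℝ, 0 < τ ∧ ∃ p₀ : ℕ,
    ∀ (p : ℕ) [Fact p.Prime], p₀ ≤ p → ∀ χ : DirichletCharacter ℂ p, χ ≠ 1 →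
    ∀ (A B T T' : Finset (ZMod p)), (p : ℝ) ^ ε ≤ T.card → (p : ℝ) ^ ε ≤ T'.card →
      ((A + T).card : ℝ) ≤ (p : ℝ) ^ τ * A.card →
      ((B + T').card : ℝ) ≤ (p : ℝ) ^ τ * B.card →
      (∀ X : Finset (ZMod p), (X.card : ℝ) ≤ (p : ℝ) ^ (1 / 2 + ε) →
        (((A ×ˢ B).filter fun t => t.1 + t.2 ∈ X).card : ℝ) ≤
          (p : ℝ) ^ (-ε) * (A.card * B.card)) →
      ∀ f g : ZMod p → ℂ, ‖∑ a ∈ A, ∑ b ∈ B, f a * g b * χ (a + b)‖ ≤ (p : ℝ) ^ (-τ) *
        ((Real.sqrt A.card * Real.sqrt B.card) *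
          (Real.sqrt (∑ a ∈ A, ‖f a‖ ^ 2) * Real.sqrt (∑ b ∈ B, ‖g b‖ ^ 2))) := by
  classical
  set ε' : ℝ := min ε 1 with hε'
  have hε'0 : 0 < ε' := lt_min hε one_pos
  have hε'1 : ε' ≤ 1 := min_le_right _ _
  have hε'ε : ε' ≤ ε := min_le_left _ _
  set κ : ℝ := ε' / 64 with hκ
  set c : ℝ := ε' / 64 with hc
  have hκ0 : 0 < κ := by positivity
  have hc0 : 0 < c := by positivity
  have hκ1 : κ ≤ 1 := by rw [hκ]; linarith
  have hc1 : c ≤ 1 / 4 := by rw [hc]; linarith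
  have hκc0 : 0 < κ * c := mul_pos hκ0 hc0
  set k : ℕ := ⌈1 / κ⌉₊ with hk
  have hk1 : 1 ≤ κ * k := by
    have h1 : 1 / κ ≤ k := Nat.le_ceil _
    rw [div_le_iff₀ hκ0] at h1
    linarith
  have hk2 : κ * k ≤ 2 := by
    have h1 : (k : ℝ) < 1 / κ + 1 := Nat.ceil_lt_add_one (by positivity)
    have h2 : κ * k < κ * (1 / κ + 1) := mul_lt_mul_of_pos_left h1 hκ0
    have h3 : κ * (1 / κ + 1) = 1 + κ := by
      field_simp
    linarith
  set C₁ : ℝ := (4 * k : ℝ) ^ (2 * k) * 2 ^ k + 4 * k with hC₁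
  obtain ⟨p₁, hp₁⟩ := large 2 κ hκ0
  obtain ⟨p₂, hp₂⟩ := large C₁ (ε' / 2) (by positivity)
  obtain ⟨p₃, hp₃⟩ := large 3 (κ * c / 8) (by positivity)
  obtain ⟨p₄, hp₄⟩ := large 3 (κ * c / 4 / 12) (by positivity)
  refine ⟨κ * c / 16, by positivity, max (max p₁ p₂) (max p₃ p₄), ?_⟩
  intro p hpf hp χ hχ A B T T' hT hT' hA hB hAB
  have hp1 := hp₁ p (((le_max_left _ _).trans (le_max_left _ _)).trans hp)
  have hp2 := hp₂ p (((le_max_right _ _).trans (le_max_left _ _)).trans hp)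
  have hp3 := hp₃ p (((le_max_left _ _).trans (le_max_right _ _)).trans hp)
  have hp4 := hp₄ p (((le_max_right _ _).trans (le_max_right _ _)).trans hp)
  have hpR : (1 : ℝ) ≤ p := by exact_mod_cast (Fact.out : p.Prime).one_lt.le
  have hp0 : (0 : ℝ) < p := by linarith
  set L : ℕ := ⌊(p : ℝ) ^ κ⌋₊ with hL
  have hLle : (L : ℝ) ≤ (p : ℝ) ^ κ := Nat.floor_le (by positivity)
  have hLge : (p : ℝ) ^ κ / 2 ≤ L := by
    have := Nat.lt_floor_add_one ((p : ℝ) ^ κ)
    rw [← hL] at this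
    linarith
  have hL1 : 1 ≤ L := by
    rw [hL]
    exact Nat.le_floor (by push_cast; linarith)
  have hL1' : (1 : ℝ) ≤ L := by exact_mod_cast hL1
  have hκε : κ ≤ ε := by rw [hκ]; linarith
  have hLN : ∀ n : ℕ, (p : ℝ) ^ ε ≤ n → L ≤ n := by
    intro n hn
    have h1 : (L : ℝ) ≤ n := by
      refine hLle.trans (le_trans ?_ hn)
      exact Real.rpow_le_rpow_of_exponent_le hpR hκε
    exact_mod_cast h1
  obtain ⟨e, he, heT⟩ := exists_enum T L (hLN _ hT)
  obtain ⟨e', he', heT'⟩ := exists_enum T' L (hLN _ hT')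
  have hLpos : (0 : ℝ) < L := by linarith
  set Bd : ℝ := (L : ℝ) ^ (1 - c) with hBd
  have hBd0 : 0 < Bd := by positivity
  set G : ℝ := ((4 * k : ℝ) ^ (2 * k) * (L : ℝ) ^ k * p +
    (4 * k) * (L : ℝ) ^ (2 * k) * Real.sqrt p) / Bd ^ (2 * k) with hG
  have hG0 : 0 ≤ G := by positivity
  set M : ℝ := (L : ℝ) ^ 2 * G with hM
  have hX : ((PS.Bad χ e e' Bd).card : ℝ) ≤ M :=
    PS.bad_card χ e e' he' Bd G hG0 (fun h hh => PS.G_bound χ hχ k e he hL1 Bd hBd0 h hh)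
  have hMle : M ≤ C₁ * (p : ℝ) ^ (1 / 2 + 4 * c + 2 * κ) :=
    M_num p κ c k L hpR hκ0 hc0 hc1 hk1 hk2 hL1' hLge hLle
  have hMle2 : M ≤ (p : ℝ) ^ (1 / 2 + ε) := by
    refine hMle.trans ?_
    calc C₁ * (p : ℝ) ^ (1 / 2 + 4 * c + 2 * κ) ≤
          (p : ℝ) ^ (ε' / 2) * (p : ℝ) ^ (1 / 2 + 4 * c + 2 * κ) :=
          mul_le_mul_of_nonneg_right hp2 (by positivity)
      _ = (p : ℝ) ^ (ε' / 2 + (1 / 2 + 4 * c + 2 * κ)) := by rw [← Real.rpow_add hp0]
      _ ≤ (p : ℝ) ^ (1 / 2 + ε) := by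
          refine Real.rpow_le_rpow_of_exponent_le hpR ?_
          rw [hκ, hc]
          linarith
  have hbdd : ∀ f g : ZMod p → ℂ, (∀ x, ‖f x‖ ≤ 1) → (∀ x, ‖g x‖ ≤ 1) →
      ‖∑ a ∈ A, ∑ b ∈ B, f a * g b * χ (a + b)‖ ≤
        (p : ℝ) ^ (-(κ * c / 4)) * (A.card * B.card) := by
    intro f g hf hg
    have hsb := PS.shift_bound χ hL1 e e' Bd hBd0.le A B (dn' A e) (dn' B e')
      (fun a ha i => mem_image.2 ⟨(a, i), mem_product.2 ⟨ha, mem_univ _⟩, rfl⟩)
      (fun b hb j => mem_image.2 ⟨(b, j), mem_product.2 ⟨hb, mem_univ _⟩, rfl⟩) f g hf hg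
    refine hsb.trans ?_
    have hbad := bad_local' A B e e' (PS.Bad χ e e' Bd) M
      ((p : ℝ) ^ (-ε) * (A.card * B.card)) hX (fun Y hY => hAB Y (hY.trans hMle2))
    have hUA : ((dn' A e).card : ℝ) ≤ (p : ℝ) ^ (κ * c / 16) * A.card := by
      refine le_trans ?_ hA
      exact_mod_cast dn'_card A T e heT
    have hUB : ((dn' B e').card : ℝ) ≤ (p : ℝ) ^ (κ * c / 16) * B.card := by
      refine le_trans ?_ hB
      exact_mod_cast dn'_card B T' e' heT'
    have hU : ((dn' A e).card : ℝ) * (dn' B e').card ≤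
        ((p : ℝ) ^ (κ * c / 16)) ^ 2 * ((A.card : ℝ) * B.card) := by
      calc _ ≤ ((p : ℝ) ^ (κ * c / 16) * A.card) * ((p : ℝ) ^ (κ * c / 16) * B.card) :=
            mul_le_mul hUA hUB (Nat.cast_nonneg _) (by positivity)
        _ = _ := by ring
    have hR : Real.sqrt ((1 + Bd) / L) ≤ 2 * (p : ℝ) ^ (-(κ * c / 2)) :=
      R_num p κ c L hpR hκ0 hc0 (by linarith) hL1' hLge
    refine (add_le_add le_rfl hbad).trans ?_
    exact local_num p κ c ε' ε ((A.card : ℝ) * B.card)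
      (((dn' A e).card : ℝ) * (dn' B e').card) L hpR hκ0 hc0 (by rw [hκ]; linarith)
      (by nlinarith) hε'ε (by positivity) hU (by positivity) hLle (by positivity) _ hR
      (Real.sqrt_nonneg _) hp3
  intro f g
  have h1 := linf_to_l2_pow A B (fun a b => χ (a + b)) (fun a b => χ.norm_le_one _) p (κ * c / 4)
    hpR hp4 hbdd f g
  have e1 : κ * c / 4 / 4 = κ * c / 16 := by ring
  rw [e1] at h1
  exact h1

end Pool.Agent.Q40.PS
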