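import Pool.Agent.Q40.PS.Mom

/-! # Bilinear forms over short sums of two arbitrary sets, shifting both variables

The same as `Pool.Agent.TH7.PG` (Block, Shift) with arbitrary sets of shifts. -/

set_option autoImplicit false

namespace Pool.Agent.Q40.PS

open Finset

/-- the exceptional starting points: some correlation along the direction `θ` is larger than `B` -/
noncomputable def Bad {p : ℕ} [NeZero p] (χ : DirichletCharacter ℂ p) {L : ℕ} (e e' : Fin L → ZMod p)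
    (B : ℝ) : Finset (ZMod p) :=
  open Classical in
  univ.filter fun w => ∃ j j' : Fin L, j ≠ j' ∧
    B < ‖V χ e (e' j' - e' j) (w + e' j)‖

theorem bad_card {p : ℕ} [Fact p.Prime] (χ : DirichletCharacter ℂ p) {L : ℕ} (e e' : Fin L → ZMod p)
    (he' : Function.Injective e') (B G : ℝ) (hG0 : 0 ≤ G)
    (hG : ∀ h : ZMod p, h ≠ 0 → ((univ.filter fun w => B < ‖V χ e h w‖).card : ℝ) ≤ G) :
    ((Bad χ e e' B).card : ℝ) ≤ (L : ℝ) ^ 2 * G := by
  classical
  set W : Finset (Fin L × Fin L) := univ.filter fun u => u.1 ≠ u.2 with hW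
  have hsub : Bad χ e e' B ⊆ W.biUnion fun u => univ.filter fun w =>
      B < ‖V χ e (e' u.2 - e' u.1)
        (w + e' u.1)‖ := by
    intro w hw
    obtain ⟨j, j', hjj, h1⟩ := (mem_filter.1 hw).2
    rw [mem_biUnion]
    exact ⟨(j, j'), mem_filter.2 ⟨mem_univ _, hjj⟩, mem_filter.2 ⟨mem_univ _, h1⟩⟩
  have h1 : ∀ u ∈ W, ((univ.filter fun w =>
      B < ‖V χ e (e' u.2 - e' u.1)
        (w + e' u.1)‖).card : ℝ) ≤ G := by
    intro u hu
    have hne : u.1 ≠ u.2 := (mem_filter.1 hu).2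
    have hh : e' u.2 - e' u.1 ≠ 0 := by
      exact sub_ne_zero.2 fun h2 => hne (he' h2.symm)
    refine le_trans ?_ (hG _ hh)
    have h4 : (univ.filter fun w =>
      B < ‖V χ e (e' u.2 - e' u.1)
        (w + e' u.1)‖).card ≤ (univ.filter fun w =>
      B < ‖V χ e (e' u.2 - e' u.1) w‖).card := by
      refine Finset.card_le_card_of_injOn (fun w => w + e' u.1) ?_ ?_
      · intro w hw
        have := (mem_filter.1 (mem_coe.1 hw)).2
        exact mem_coe.2 (mem_filter.2 ⟨mem_univ _, this⟩)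
      · intro w _ w' _ hww
        exact add_right_cancel hww
    exact_mod_cast h4
  calc ((Bad χ e e' B).card : ℝ) ≤ ((∑ u ∈ W, (univ.filter fun w =>
      B < ‖V χ e (e' u.2 - e' u.1)
        (w + e' u.1)‖).card : ℕ) : ℝ) := by
        exact_mod_cast (card_le_card hsub).trans card_biUnion_le
    _ ≤ ∑ _u ∈ W, G := by
        push_cast
        exact Finset.sum_le_sum h1
    _ = W.card * G := by rw [Finset.sum_const, nsmul_eq_mul]
    _ ≤ (L : ℝ) ^ 2 * G := by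
        refine mul_le_mul_of_nonneg_right ?_ hG0
        have h5 : W.card ≤ L ^ 2 := by
          refine (Finset.card_filter_le _ _).trans ?_
          rw [Finset.card_univ, Fintype.card_prod, Fintype.card_fin, sq]
        exact_mod_cast h5

/-- the bilinear form over the box, away from the exceptional set -/
theorem block {p : ℕ} [NeZero p] (χ : DirichletCharacter ℂ p) {L : ℕ} (e e' : Fin L → ZMod p) (B : ℝ)
    (hB : 0 ≤ B) (w : ZMod p) (hw : w ∉ Bad χ e e' B) (α β : Fin L → ℂ) (hα : ∀ i, ‖α i‖ ≤ 1)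
    (hβ : ∀ j, ‖β j‖ ≤ 1) :
    ‖∑ i : Fin L, ∑ j : Fin L, α i * β j *
      χ (w + e i + e' j)‖ ^ 2 ≤ (L : ℝ) ^ 3 * (1 + B) := by
  classical
  have hgood : ∀ j j' : Fin L, j ≠ j' →
      ‖V χ e (e' j' - e' j) (w + e' j)‖ ≤ B := by
    intro j j' hjj
    by_contra hcon
    push Not at hcon
    exact hw (mem_filter.2 ⟨mem_univ _, j, j', hjj, hcon⟩)
  set T : Fin L → ℂ := fun i => ∑ j : Fin L, β j *
    χ (w + e i + e' j) with hT
  have h1 : ‖∑ i : Fin L, ∑ j : Fin L, α i * β j *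
      χ (w + e i + e' j)‖ ≤ ∑ i : Fin L, ‖α i‖ * ‖T i‖ := by
    refine (norm_sum_le _ _).trans (Finset.sum_le_sum fun i _ => ?_)
    rw [← norm_mul, hT, Finset.mul_sum]
    simp only [mul_assoc]
    exact le_rfl
  have h2 : (∑ i : Fin L, ‖α i‖ * ‖T i‖) ^ 2 ≤ (∑ i : Fin L, ‖α i‖ ^ 2) * ∑ i : Fin L, ‖T i‖ ^ 2 :=
    Finset.sum_mul_sq_le_sq_mul_sq _ _ _
  have h3 : ∑ i : Fin L, ‖α i‖ ^ 2 ≤ L := by
    calc ∑ i : Fin L, ‖α i‖ ^ 2 ≤ ∑ _i : Fin L, (1 : ℝ) :=
          Finset.sum_le_sum fun i _ => pow_le_one₀ (norm_nonneg _) (hα i)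
      _ = L := by simp
  have h4 : ((∑ i : Fin L, ‖T i‖ ^ 2 : ℝ) : ℂ) = ∑ j : Fin L, ∑ j' : Fin L,
      β j * (starRingEnd ℂ) (β j') *
      V χ e (e' j' - e' j) (w + e' j) := by
    have h5 : ∀ i : Fin L, ((‖T i‖ ^ 2 : ℝ) : ℂ) = ∑ j : Fin L, ∑ j' : Fin L,
        β j * (starRingEnd ℂ) (β j') *
        (χ (w + e i + e' j) *
        (starRingEnd ℂ) (χ (w + e i + e' j'))) := by
      intro i
      have h6 : ((‖T i‖ ^ 2 : ℝ) : ℂ) = T i * (starRingEnd ℂ) (T i) := by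
        rw [Complex.mul_conj, Complex.normSq_eq_norm_sq]
      rw [h6, hT]
      simp only [map_sum, map_mul]
      rw [Finset.sum_mul_sum]
      refine Finset.sum_congr rfl fun j _ => Finset.sum_congr rfl fun j' _ => ?_
      ring
    rw [Complex.ofReal_sum, Finset.sum_congr rfl fun i _ => h5 i, Finset.sum_comm]
    refine Finset.sum_congr rfl fun j _ => ?_
    rw [Finset.sum_comm]
    refine Finset.sum_congr rfl fun j' _ => ?_
    rw [← Finset.mul_sum, V]
    congr 1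
    refine Finset.sum_congr rfl fun i _ => ?_
    have e1 : w + e i + e' j = w + e' j + e i := by ring
    have e2 : w + e i + e' j' = w + e' j + (e' j' - e' j) + e i := by ring
    rw [e1, e2]
  have h5 : ∑ i : Fin L, ‖T i‖ ^ 2 ≤ (L : ℝ) ^ 2 * (1 + B) := by
    have h6 : ∑ i : Fin L, ‖T i‖ ^ 2 = ‖∑ j : Fin L, ∑ j' : Fin L,
        β j * (starRingEnd ℂ) (β j') *
        V χ e (e' j' - e' j) (w + e' j)‖ := by
      rw [← h4, Complex.norm_real, Real.norm_eq_abs, abs_of_nonneg]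
      exact Finset.sum_nonneg fun i _ => by positivity
    rw [h6]
    refine (norm_sum_le _ _).trans ?_
    have h7 : ∀ j : Fin L, ‖∑ j' : Fin L, β j * (starRingEnd ℂ) (β j') *
        V χ e (e' j' - e' j) (w + e' j)‖ ≤
        L * (1 + B) := by
      intro j
      refine (norm_sum_le _ _).trans ?_
      have h8 : ∀ j' : Fin L, ‖β j * (starRingEnd ℂ) (β j') *
          V χ e (e' j' - e' j) (w + e' j)‖ ≤
          (if j' = j then (L : ℝ) else 0) + B := by
        intro j'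
        rw [norm_mul, norm_mul, RCLike.norm_conj]
        have h9 : ‖β j‖ * ‖β j'‖ ≤ 1 := mul_le_one₀ (hβ j) (norm_nonneg _) (hβ j')
        refine (mul_le_of_le_one_left (norm_nonneg _) h9).trans ?_
        split_ifs with h10
        · exact (V_norm_le χ e _ _).trans (by linarith)
        · rw [zero_add]
          exact hgood j j' (fun h11 => h10 h11.symm)
      refine (Finset.sum_le_sum fun j' _ => h8 j').trans ?_
      rw [Finset.sum_add_distrib, Finset.sum_ite_eq' univ j]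
      simp only [mem_univ, if_true, Finset.sum_const, card_univ, Fintype.card_fin, nsmul_eq_mul]
      linarith
    refine (Finset.sum_le_sum fun j _ => h7 j).trans ?_
    simp only [Finset.sum_const, card_univ, Fintype.card_fin, nsmul_eq_mul]
    exact le_of_eq (by ring)
  have hLn : (0 : ℝ) ≤ L := Nat.cast_nonneg L
  have hT0 : 0 ≤ ∑ i : Fin L, ‖T i‖ ^ 2 := Finset.sum_nonneg fun i _ => by positivity
  calc ‖∑ i : Fin L, ∑ j : Fin L, α i * β j *
      χ (w + e i + e' j)‖ ^ 2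
      ≤ (∑ i : Fin L, ‖α i‖ * ‖T i‖) ^ 2 := pow_le_pow_left₀ (norm_nonneg _) h1 2
    _ ≤ (∑ i : Fin L, ‖α i‖ ^ 2) * ∑ i : Fin L, ‖T i‖ ^ 2 := h2
    _ ≤ L * ((L : ℝ) ^ 2 * (1 + B)) := mul_le_mul h3 h5 hT0 hLn
    _ = (L : ℝ) ^ 3 * (1 + B) := by ring


theorem sum_shift {p : ℕ} [NeZero p] (A₀ U : Finset (ZMod p)) (s : ZMod p)
    (hU : ∀ a ∈ A₀, a - s ∈ U) (Φ : ZMod p → ℂ) (hΦ : ∀ x, x ∉ A₀ → Φ x = 0) :
    ∑ a ∈ A₀, Φ a = ∑ t ∈ U, Φ (t + s) := by
  classical
  have h1 : ∑ a ∈ A₀, Φ a = ∑ x : ZMod p, Φ x :=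
    Finset.sum_subset (subset_univ _) fun x _ hx => hΦ x hx
  have h2 : ∑ t ∈ U, Φ (t + s) = ∑ t : ZMod p, Φ (t + s) := by
    refine Finset.sum_subset (subset_univ _) fun t _ ht => hΦ _ fun h3 => ht ?_
    have := hU _ h3
    simpa using this
  rw [h1, h2]
  exact (Equiv.sum_comp (Equiv.addRight s) Φ).symm

theorem shift_bound {p : ℕ} [Fact p.Prime] (χ : DirichletCharacter ℂ p) {L : ℕ} (hL : 1 ≤ L)
    (e e' : Fin L → ZMod p) (B : ℝ) (hB : 0 ≤ B)
    (A₀ B₀ U U' : Finset (ZMod p)) (hU : ∀ a ∈ A₀, ∀ i : Fin L, a - e i ∈ U)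
    (hU' : ∀ b ∈ B₀, ∀ j : Fin L, b - e' j ∈ U')
    (f g : ZMod p → ℂ) (hf : ∀ x, ‖f x‖ ≤ 1) (hg : ∀ x, ‖g x‖ ≤ 1) :
    ‖∑ a ∈ A₀, ∑ b ∈ B₀, f a * g b * χ (a + b)‖ ≤
      Real.sqrt ((1 + B) / L) * ((U.card : ℝ) * U'.card) +
      (((U ×ˢ U').filter fun t => t.1 + t.2 ∈ Bad χ e e' B).card : ℝ) := by
  classical
  have hLpos : (0 : ℝ) < L := by exact_mod_cast hL
  set F : ZMod p → ℂ := fun a => if a ∈ A₀ then f a else 0 with hF
  set G : ZMod p → ℂ := fun b => if b ∈ B₀ then g b else 0 with hG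
  have hFn : ∀ x, ‖F x‖ ≤ 1 := by
    intro x
    rw [hF]
    dsimp only
    split_ifs
    · exact hf x
    · simp
  have hGn : ∀ x, ‖G x‖ ≤ 1 := by
    intro x
    rw [hG]
    dsimp only
    split_ifs
    · exact hg x
    · simp
  set S : ℂ := ∑ a ∈ A₀, ∑ b ∈ B₀, f a * g b * χ (a + b) with hS
  -- the local sums
  set T : ZMod p × ZMod p → ℂ := fun t => ∑ i : Fin L, ∑ j : Fin L,
    F (t.1 + e i) * G (t.2 + e' j) *
      χ (t.1 + e i + (t.2 + e' j)) with hT
  have hij : ∀ i j : Fin L, S = ∑ t ∈ U ×ˢ U',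
      F (t.1 + e i) * G (t.2 + e' j) *
      χ (t.1 + e i + (t.2 + e' j)) := by
    intro i j
    rw [Finset.sum_product]
    have h1 : S = ∑ a ∈ A₀, ∑ b ∈ B₀, F a * G b * χ (a + b) := by
      rw [hS]
      refine Finset.sum_congr rfl fun a ha => Finset.sum_congr rfl fun b hb => ?_
      rw [hF, hG]
      simp only [ha, hb, if_true]
    rw [h1]
    have h2 : ∀ a, ∑ b ∈ B₀, F a * G b * χ (a + b) = ∑ t' ∈ U',
        F a * G (t' + e' j) * χ (a + (t' + e' j)) := by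
      intro a
      refine sum_shift B₀ U' _ (fun b hb => hU' b hb j) (fun b => F a * G b * χ (a + b)) ?_
      intro x hx
      simp [hG, hx]
    rw [Finset.sum_congr rfl fun a _ => h2 a]
    refine sum_shift A₀ U _ (fun a ha => hU a ha i) (fun a => ∑ t' ∈ U',
        F a * G (t' + e' j) * χ (a + (t' + e' j))) ?_
    intro x hx
    simp [hF, hx]
  have htot : ((L : ℂ) ^ 2) * S = ∑ t ∈ U ×ˢ U', T t := by
    have h1 : ∑ t ∈ U ×ˢ U', T t = ∑ _i : Fin L, ∑ _j : Fin L, S := by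
      rw [hT]
      rw [Finset.sum_comm]
      refine Finset.sum_congr rfl fun i _ => ?_
      rw [Finset.sum_comm]
      refine Finset.sum_congr rfl fun j _ => ?_
      exact (hij i j).symm
    rw [h1]
    simp only [Finset.sum_const, card_univ, Fintype.card_fin, nsmul_eq_mul]
    ring
  -- bounds for the local sums
  have hsmall : ∀ t ∈ U ×ˢ U', ‖T t‖ ≤ (L : ℝ) ^ 2 := by
    intro t _
    rw [hT]
    refine (norm_sum_le _ _).trans ?_
    calc ∑ i : Fin L, ‖∑ j : Fin L, F (t.1 + e i) *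
          G (t.2 + e' j) *
          χ (t.1 + e i + (t.2 + e' j))‖
        ≤ ∑ _i : Fin L, ∑ _j : Fin L, (1 : ℝ) := by
          refine Finset.sum_le_sum fun i _ => (norm_sum_le _ _).trans
            (Finset.sum_le_sum fun j _ => ?_)
          rw [norm_mul, norm_mul]
          exact mul_le_one₀ (mul_le_one₀ (hFn _) (norm_nonneg _) (hGn _)) (norm_nonneg _)
            (χ.norm_le_one _)
      _ = (L : ℝ) ^ 2 := by
          simp only [Finset.sum_const, card_univ, Fintype.card_fin, nsmul_eq_mul]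
          ring
  have hgood : ∀ t ∈ U ×ˢ U', t.1 + t.2 ∉ Bad χ e e' B →
      ‖T t‖ ≤ (L : ℝ) ^ 2 * Real.sqrt ((1 + B) / L) := by
    intro t _ ht
    have h1 := block χ e e' B hB (t.1 + t.2) ht
      (fun i => F (t.1 + e i)) (fun j => G (t.2 + e' j))
      (fun i => hFn _) (fun j => hGn _)
    have h2 : T t = ∑ i : Fin L, ∑ j : Fin L,
        F (t.1 + e i) * G (t.2 + e' j) * χ (t.1 + t.2 + e i + e' j) := by
      rw [hT]
      refine Finset.sum_congr rfl fun i _ => Finset.sum_congr rfl fun j _ => ?_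
      have h3 : t.1 + e i + (t.2 + e' j) = t.1 + t.2 + e i + e' j := by ring
      rw [h3]
    have h4 : ‖T t‖ ^ 2 ≤ (L : ℝ) ^ 3 * (1 + B) := by
      rw [h2]
      exact h1
    have h5 : ‖T t‖ ≤ Real.sqrt ((L : ℝ) ^ 3 * (1 + B)) := Real.le_sqrt_of_sq_le h4
    refine h5.trans (le_of_eq ?_)
    have h6 : (L : ℝ) ^ 3 * (1 + B) = ((L : ℝ) ^ 2) ^ 2 * ((1 + B) / L) := by
      field_simp
    rw [h6, Real.sqrt_mul (by positivity), Real.sqrt_sq (by positivity)]
  set R : ℝ := Real.sqrt ((1 + B) / L) with hR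
  have hR0 : 0 ≤ R := Real.sqrt_nonneg _
  set Z : Finset (ZMod p × ZMod p) :=
    (U ×ˢ U').filter fun t => t.1 + t.2 ∈ Bad χ e e' B with hZ
  have h7 : ‖∑ t ∈ U ×ˢ U', T t‖ ≤ (L : ℝ) ^ 2 * (R * ((U.card : ℝ) * U'.card) + Z.card) := by
    refine (norm_sum_le _ _).trans ?_
    rw [← Finset.sum_filter_add_sum_filter_not (U ×ˢ U')
      (fun t => t.1 + t.2 ∈ Bad χ e e' B)]
    have h8 : ∑ t ∈ (U ×ˢ U').filter (fun t => t.1 + t.2 ∈ Bad χ e e' B), ‖T t‖ ≤
        (Z.card : ℝ) * (L : ℝ) ^ 2 := by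
      refine (Finset.sum_le_card_nsmul _ _ _ fun t ht => hsmall t (mem_filter.1 ht).1).trans ?_
      rw [nsmul_eq_mul]
    have h9 : ∑ t ∈ (U ×ˢ U').filter (fun t => ¬ t.1 + t.2 ∈ Bad χ e e' B), ‖T t‖ ≤
        ((U.card : ℝ) * U'.card) * ((L : ℝ) ^ 2 * R) := by
      refine (Finset.sum_le_card_nsmul _ _ _ fun t ht =>
        hgood t (mem_filter.1 ht).1 (mem_filter.1 ht).2).trans ?_
      rw [nsmul_eq_mul]
      refine mul_le_mul_of_nonneg_right ?_ (by positivity)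
      have h10 := Finset.card_filter_le (U ×ˢ U')
        (fun t => ¬ t.1 + t.2 ∈ Bad χ e e' B)
      rw [Finset.card_product] at h10
      exact_mod_cast h10
    calc _ ≤ (Z.card : ℝ) * (L : ℝ) ^ 2 + ((U.card : ℝ) * U'.card) * ((L : ℝ) ^ 2 * R) :=
          add_le_add h8 h9
      _ = (L : ℝ) ^ 2 * (R * ((U.card : ℝ) * U'.card) + Z.card) := by ring
  rw [← htot, norm_mul, norm_pow, Complex.norm_natCast] at h7
  exact le_of_mul_le_mul_left h7 (by positivity)

theorem G_bound {p : ℕ} [Fact p.Prime] (χ : DirichletCharacter ℂ p) (hχ : χ ≠ 1) (k : ℕ) {L : ℕ}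
    (e : Fin L → ZMod p) (he : Function.Injective e) (hL1 : 1 ≤ L) (B : ℝ) (hB : 0 < B) (h : ZMod p) (hh : h ≠ 0) :
    ((univ.filter fun w => B < ‖V χ e h w‖).card : ℝ) ≤
      ((4 * k : ℝ) ^ (2 * k) * (L : ℝ) ^ k * p + (4 * k) * (L : ℝ) ^ (2 * k) * Real.sqrt p) /
        B ^ (2 * k) := by
  classical
  rw [le_div_iff₀ (by positivity)]
  refine le_trans ?_ (mom χ hχ k e he hL1 h hh)
  calc ((univ.filter fun w => B < ‖V χ e h w‖).card : ℝ) * B ^ (2 * k)
      = ∑ _w ∈ univ.filter fun w => B < ‖V χ e h w‖, B ^ (2 * k) := by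
        rw [Finset.sum_const, nsmul_eq_mul]
    _ ≤ ∑ w ∈ univ.filter fun w => B < ‖V χ e h w‖, ‖V χ e h w‖ ^ (2 * k) := by
        refine Finset.sum_le_sum fun w hw => ?_
        exact pow_le_pow_left₀ hB.le (mem_filter.1 hw).2.le _
    _ ≤ ∑ w : ZMod p, ‖V χ e h w‖ ^ (2 * k) :=
        Finset.sum_le_sum_of_subset_of_nonneg (Finset.subset_univ _) fun _ _ _ => by positivity

end Pool.Agent.Q40.PS
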